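import Mathlib

/-! Two fixed point lemmas: the contour operator, and holomorphic self-maps of a disc. -/

namespace Pool.Agent.Helper44.CLTd

open MeasureTheory Set Complex Metric
open scoped NNReal ENNReal

/-- A holomorphic map of a disc with small image has a fixed point. -/
theorem exists_fixed_disc {c : ℂ} {ρ : ℝ} (hρ : 0 < ρ) {Θ : ℂ → ℂ}
    (hd : DifferentiableOn ℂ Θ (ball c (2 * ρ)))
    (hb : ∀ y ∈ ball c (2 * ρ), ‖Θ y - c‖ ≤ ρ / 4) : ∃ y ∈ closedBall c ρ, Θ y = y := by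
  have hsub : closedBall c ρ ⊆ ball c (2 * ρ) := closedBall_subset_ball (by linarith)
  have hda : ∀ y ∈ closedBall c ρ, DifferentiableAt ℂ Θ y := fun y hy =>
    hd.differentiableAt (isOpen_ball.mem_nhds (hsub hy))
  have hder : ∀ y ∈ closedBall c ρ, ‖deriv Θ y‖ ≤ 1 / 2 := by
    intro y hy
    have hs2 : closedBall y (ρ / 2) ⊆ ball c (2 * ρ) := by
      intro x hx
      rw [mem_closedBall] at hx hy
      rw [mem_ball]
      calc dist x c ≤ dist x y + dist y c := dist_triangle _ _ _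
        _ ≤ ρ / 2 + ρ := add_le_add hx hy
        _ < 2 * ρ := by linarith
    have h1 : DiffContOnCl ℂ (fun x => Θ x - c) (ball y (ρ / 2)) := by
      apply DifferentiableOn.diffContOnCl
      have : DifferentiableOn ℂ (fun x => Θ x - c) (ball c (2 * ρ)) := hd.sub_const c
      exact this.mono (closure_ball_subset_closedBall.trans hs2)
    have h2 := Complex.norm_deriv_le_of_forall_mem_sphere_norm_le (by positivity : 0 < ρ / 2) h1
      (C := ρ / 4) (fun z hz => hb z (hs2 (sphere_subset_closedBall hz)))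
    rw [deriv_sub_const] at h2
    calc _ ≤ ρ / 4 / (ρ / 2) := h2
      _ = 1 / 2 := by field_simp; norm_num
  have hlip : ∀ x ∈ closedBall c ρ, ∀ y ∈ closedBall c ρ, ‖Θ y - Θ x‖ ≤ 1 / 2 * ‖y - x‖ :=
    fun x hx y hy => (convex_closedBall c ρ).norm_image_sub_le_of_norm_deriv_le hda hder hx hy
  have hmaps : MapsTo Θ (closedBall c ρ) (closedBall c ρ) := by
    intro y hy
    rw [mem_closedBall, dist_eq_norm]
    linarith [hb y (hsub hy)]
  have hcontr : ContractingWith (1 / 2 : ℝ≥0) (hmaps.restrict Θ _ _) := by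
    refine ⟨by norm_num, LipschitzWith.of_dist_le_mul ?_⟩
    intro x y
    rw [Subtype.dist_eq, Subtype.dist_eq, dist_eq_norm, dist_eq_norm]
    simpa using hlip y.1 y.2 x.1 x.2
  obtain ⟨y, hy, hfy, -⟩ := ContractingWith.exists_fixedPoint' (isClosed_closedBall.isComplete)
    hmaps hcontr (mem_closedBall_self hρ.le) (edist_ne_top _ _)
  exact ⟨y, hy, hfy⟩

/-- The contour operator. -/
noncomputable def Gop (η σ : ℝ) (g : ℝ → ℂ) (r : ℝ) : ℂ :=
  (1 / Real.pi : ℂ) * ∫ τ in (-σ)..σ, exp (2 * (η + τ * I) * (r - 1)) * g τ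

lemma norm_exp_Gop {η : ℝ} (hη : 0 < η) {R r : ℝ} (hηR : η * R ≤ 1) (hr : r ∈ Icc 2 R) (τ : ℝ) :
    ‖exp (2 * (η + τ * I) * (r - 1))‖ ≤ 9 := by
  rw [norm_exp]
  have h1 : (2 * ((η : ℂ) + τ * I) * (r - 1)).re = 2 * η * (r - 1) := by
    have : (2 * ((η : ℂ) + τ * I) * (r - 1)) = ((2 * η * (r - 1) : ℝ) : ℂ)
        + ((2 * τ * (r - 1) : ℝ) : ℂ) * I := by push_cast; ring
    rw [this]; simp
  rw [h1]
  have h2 : 2 * η * (r - 1) ≤ 2 := by nlinarith [hr.1, hr.2]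
  calc Real.exp (2 * η * (r - 1)) ≤ Real.exp 2 := Real.exp_le_exp.2 h2
    _ = Real.exp 1 * Real.exp 1 := by rw [← Real.exp_add]; norm_num
    _ ≤ 9 := by nlinarith [Real.exp_one_lt_d9, Real.exp_pos 1]

lemma norm_Gop_le {η σ : ℝ} (hη : 0 < η) (hσ : 0 < σ) {R r : ℝ} (hηR : η * R ≤ 1)
    (hr : r ∈ Icc 2 R) {g : ℝ → ℂ} {M : ℝ} (hg : ∀ τ ∈ Icc (-σ) σ, ‖g τ‖ ≤ M) :
    ‖Gop η σ g r‖ ≤ 6 * σ * M := by
  have hM : 0 ≤ M := (norm_nonneg _).trans (hg 0 ⟨by linarith, hσ.le⟩)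
  unfold Gop
  rw [norm_mul]
  have h1 : ‖∫ τ in (-σ)..σ, exp (2 * (η + τ * I) * (r - 1)) * g τ‖ ≤ 9 * M * |σ - (-σ)| := by
    apply intervalIntegral.norm_integral_le_of_norm_le_const
    intro τ hτ
    rw [uIoc_of_le (by linarith)] at hτ
    rw [norm_mul]
    exact mul_le_mul (norm_exp_Gop hη hηR hr τ) (hg τ ⟨hτ.1.le, hτ.2⟩) (norm_nonneg _) (by norm_num)
  have h2 : ‖(1 / Real.pi : ℂ)‖ ≤ 1 / 3 := by
    rw [norm_div, norm_one, norm_real, Real.norm_eq_abs, abs_of_pos Real.pi_pos]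
    apply one_div_le_one_div_of_le (by norm_num) Real.pi_gt_three.le
  have h3 : |σ - (-σ)| = 2 * σ := by rw [abs_of_pos (by linarith)]; ring
  rw [h3] at h1
  calc _ ≤ (1 / 3) * (9 * M * (2 * σ)) := mul_le_mul h2 h1 (norm_nonneg _) (by norm_num)
    _ = _ := by ring

lemma continuous_Gop {η σ : ℝ} (hη : 0 < η) (hσ : 0 < σ) {R : ℝ} (hηR : η * R ≤ 1)
    {g : ℝ → ℂ} {M : ℝ} (hgc : ContinuousOn g (Icc (-σ) σ)) (hg : ∀ τ ∈ Icc (-σ) σ, ‖g τ‖ ≤ M) :
    Continuous (fun r : Icc (2 : ℝ) R => Gop η σ g r) := by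
  unfold Gop
  apply Continuous.mul continuous_const
  apply intervalIntegral.continuous_of_dominated_interval (bound := fun _ => 9 * M)
  · intro x
    rw [uIoc_of_le (by linarith)]
    apply ContinuousOn.aestronglyMeasurable _ measurableSet_Ioc
    apply ContinuousOn.mul (by fun_prop)
    exact hgc.mono Ioc_subset_Icc_self
  · intro x
    refine Filter.Eventually.of_forall ?_
    intro τ hτ
    rw [uIoc_of_le (by linarith)] at hτ
    rw [norm_mul]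
    exact mul_le_mul (norm_exp_Gop hη hηR x.2 τ) (hg τ ⟨hτ.1.le, hτ.2⟩) (norm_nonneg _)
      (by norm_num)
  · exact intervalIntegrable_const
  · refine Filter.Eventually.of_forall ?_
    intro τ _
    fun_prop

lemma Gop_sub {η σ : ℝ} (hσ : 0 < σ) {g g' : ℝ → ℂ} (hgc : ContinuousOn g (Icc (-σ) σ))
    (hgc' : ContinuousOn g' (Icc (-σ) σ)) (r : ℝ) :
    Gop η σ g r - Gop η σ g' r = Gop η σ (fun τ => g τ - g' τ) r := by
  unfold Gop
  rw [← mul_sub, ← intervalIntegral.integral_sub]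
  · congr 1
    apply intervalIntegral.integral_congr
    intro τ _
    simp only
    ring
  · apply ContinuousOn.intervalIntegrable
    rw [uIcc_of_le (by linarith)]
    exact ContinuousOn.mul (by fun_prop) hgc
  · apply ContinuousOn.intervalIntegrable
    rw [uIcc_of_le (by linarith)]
    exact ContinuousOn.mul (by fun_prop) hgc'

theorem exists_fixed_Gop {R η σ : ℝ} (hη : 0 < η) (hηR : η * R ≤ 1) (hσ : 0 < σ)
    (w : ℝ → ℂ) (hw : ContinuousOn w (Icc (-σ) σ)) (hwb : ∀ τ ∈ Icc (-σ) σ, ‖w τ‖ ≤ 8)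
    (Z : C(Icc (2 : ℝ) R, ℂ) → ℝ → ℂ) (A B1 L : ℝ) (hA : 0 < A)
    (hZc : ∀ a, ‖a‖ ≤ A → ContinuousOn (Z a) (Icc (-σ) σ))
    (hZb : ∀ a, ‖a‖ ≤ A → ∀ τ ∈ Icc (-σ) σ, ‖Z a τ‖ ≤ B1)
    (hL : ∀ a b, ‖a‖ ≤ A → ‖b‖ ≤ A → ∀ τ ∈ Icc (-σ) σ, ‖Z a τ - Z b τ‖ ≤ L * ‖a - b‖)
    (h1 : 1000 * σ * B1 ≤ A) (h2 : 2000 * σ * L ≤ 1) :
    ∃ a : C(Icc (2 : ℝ) R, ℂ), ‖a‖ ≤ A ∧
      ∀ r : Icc (2 : ℝ) R, a r = Gop η σ (fun τ => w τ * Z a τ) r := by
  classical
  set Φ : C(Icc (2 : ℝ) R, ℂ) → C(Icc (2 : ℝ) R, ℂ) := fun a =>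
    if h : Continuous (fun r : Icc (2 : ℝ) R => Gop η σ (fun τ => w τ * Z a τ) r) then ⟨_, h⟩ else 0
    with hΦ
  have hB1 : 0 ≤ B1 := (norm_nonneg _).trans (hZb 0 (by simpa using hA.le) 0 ⟨by linarith, hσ.le⟩)
  have hbd : ∀ a, ‖a‖ ≤ A → ∀ τ ∈ Icc (-σ) σ, ‖w τ * Z a τ‖ ≤ 8 * B1 := by
    intro a ha τ hτ
    rw [norm_mul]
    exact mul_le_mul (hwb τ hτ) (hZb a ha τ hτ) (norm_nonneg _) (by norm_num)
  have hcn : ∀ a, ‖a‖ ≤ A → ContinuousOn (fun τ => w τ * Z a τ) (Icc (-σ) σ) :=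
    fun a ha => hw.mul (hZc a ha)
  have hΦa : ∀ a, ‖a‖ ≤ A → ∀ r, Φ a r = Gop η σ (fun τ => w τ * Z a τ) r := by
    intro a ha r
    have hc := continuous_Gop hη hσ hηR (hcn a ha) (hbd a ha)
    rw [hΦ]
    simp only
    rw [dif_pos hc]
    rfl
  have hmaps : MapsTo Φ (closedBall 0 A) (closedBall 0 A) := by
    intro a ha
    rw [mem_closedBall_zero_iff] at ha ⊢
    rw [ContinuousMap.norm_le _ hA.le]
    intro r
    rw [hΦa a ha]
    have := norm_Gop_le hη hσ hηR r.2 (hbd a ha)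
    have h3 : 0 ≤ σ * B1 := by positivity
    nlinarith
  have hlip : ∀ a ∈ closedBall (0 : C(Icc (2 : ℝ) R, ℂ)) A, ∀ b ∈ closedBall 0 A,
      ‖Φ a - Φ b‖ ≤ 1 / 2 * ‖a - b‖ := by
    intro a ha b hb
    rw [mem_closedBall_zero_iff] at ha hb
    rw [ContinuousMap.norm_le _ (by positivity)]
    intro r
    rw [ContinuousMap.sub_apply, hΦa a ha, hΦa b hb, Gop_sub hσ (hcn a ha) (hcn b hb)]
    have h3 := norm_Gop_le hη hσ hηR r.2 (g := fun τ => w τ * Z a τ - w τ * Z b τ)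
      (M := 8 * (L * ‖a - b‖)) (by
        intro τ hτ
        rw [← mul_sub, norm_mul]
        exact mul_le_mul (hwb τ hτ) (hL a b ha hb τ hτ) (norm_nonneg _) (by norm_num))
    refine h3.trans ?_
    have h4 : 0 ≤ ‖a - b‖ := norm_nonneg _
    have h5 : 48 * σ * L ≤ 1 / 2 := by linarith
    calc 6 * σ * (8 * (L * ‖a - b‖)) = (48 * σ * L) * ‖a - b‖ := by ring
      _ ≤ _ := mul_le_mul_of_nonneg_right h5 h4
  have hcontr : ContractingWith (1 / 2 : ℝ≥0) (hmaps.restrict Φ _ _) := by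
    refine ⟨by norm_num, LipschitzWith.of_dist_le_mul ?_⟩
    intro x y
    rw [Subtype.dist_eq, Subtype.dist_eq, dist_eq_norm, dist_eq_norm]
    simpa using hlip x.1 x.2 y.1 y.2
  obtain ⟨a, ha, hfa, -⟩ := ContractingWith.exists_fixedPoint' (isClosed_closedBall.isComplete)
    hmaps hcontr (mem_closedBall_self hA.le) (edist_ne_top _ _)
  rw [mem_closedBall_zero_iff] at ha
  refine ⟨a, ha, fun r => ?_⟩
  have h6 : Φ a = a := hfa
  have h7 := hΦa a ha r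
  rw [h6] at h7
  exact h7

end Pool.Agent.Helper44.CLTd
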