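import Pool.Agent.Helper44.CLTd.Rect
import Pool.Agent.Helper44.CLTd.Fixed

/-! The Laplace transform of the contour integral. -/

namespace Pool.Agent.Helper44.CLTd

open MeasureTheory Set Complex Metric

lemma laplace_Gop {η σ R : ℝ} (hσ : 0 < σ) (hR : 2 ≤ R) {g : ℝ → ℂ}
    (hg : ContinuousOn g (Icc (-σ) σ)) {s : ℂ} (hs : η < s.re) :
    ∫ r in Icc (2 : ℝ) R, Gop η σ g r * exp (-2 * s * (r - 1))
      = (1 / (2 * Real.pi) : ℂ) * ∫ τ in (-σ)..σ, g τ *
          ((exp (2 * (η + τ * I - s) * (R - 1)) - exp (2 * (η + τ * I - s))) / (η + τ * I - s)) := by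
  have hσ' : -σ ≤ σ := by linarith
  have hne : ∀ τ : ℝ, (η : ℂ) + τ * I - s ≠ 0 := by
    intro τ h
    have := congrArg Complex.re h
    simp at this
    linarith
  rw [integral_Icc_eq_integral_Ioc, ← intervalIntegral.integral_of_le hR]
  have h1 : ∀ r : ℝ, Gop η σ g r * exp (-2 * s * (r - 1))
      = (1 / Real.pi : ℂ) * ∫ τ in (-σ)..σ, g τ * exp (2 * (η + τ * I - s) * (r - 1)) := by
    intro r
    unfold Gop
    rw [mul_assoc, ← intervalIntegral.integral_mul_const]
    congr 1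
    apply intervalIntegral.integral_congr
    intro τ _
    simp only
    have : exp (2 * (η + τ * I - s) * (r - 1))
        = exp (2 * (η + τ * I) * (r - 1)) * exp (-2 * s * (r - 1)) := by
      rw [← exp_add]; congr 1; ring
    rw [this]; ring
  simp only [h1]
  rw [intervalIntegral.integral_const_mul]
  have hswap : ∫ r in (2 : ℝ)..R, ∫ τ in (-σ)..σ, g τ * exp (2 * (η + τ * I - s) * (r - 1))
      = ∫ τ in (-σ)..σ, ∫ r in (2 : ℝ)..R, g τ * exp (2 * (η + τ * I - s) * (r - 1)) := by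
    apply intervalIntegral_intervalIntegral_swap
    rw [uIoc_of_le hσ', uIoc_of_le hR]
    have hc : ContinuousOn (Function.uncurry fun (r τ : ℝ) =>
        g τ * exp (2 * (η + τ * I - s) * (r - 1))) (Icc 2 R ×ˢ Icc (-σ) σ) := by
      apply ContinuousOn.mul
      · exact hg.comp continuousOn_snd (fun p hp => hp.2)
      · fun_prop
    have := hc.integrableOn_compact (μ := (volume : Measure (ℝ × ℝ)))
      (isCompact_Icc.prod isCompact_Icc)
    exact this.mono_set (prod_mono Ioc_subset_Icc_self Ioc_subset_Icc_self)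
  rw [hswap]
  have h2 : ∀ τ : ℝ, ∫ r in (2 : ℝ)..R, g τ * exp (2 * (η + τ * I - s) * (r - 1))
      = (1 / 2 : ℂ) * (g τ * ((exp (2 * (η + τ * I - s) * (R - 1)) - exp (2 * (η + τ * I - s)))
          / (η + τ * I - s))) := by
    intro τ
    rw [intervalIntegral.integral_const_mul]
    have hc : 2 * ((η : ℂ) + τ * I - s) ≠ 0 := mul_ne_zero two_ne_zero (hne τ)
    have h3 : ∀ r : ℝ, exp (2 * (η + τ * I - s) * (r - 1))
        = exp (2 * (η + τ * I - s) * r) * exp (-(2 * (η + τ * I - s))) := by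
      intro r; rw [← exp_add]; congr 1; ring
    simp only [h3]
    rw [intervalIntegral.integral_mul_const, integral_exp_mul_complex hc]
    have h4 : exp (2 * (η + τ * I - s))
        = exp (2 * (η + τ * I - s) * (2 : ℝ)) * exp (-(2 * (η + τ * I - s))) := by
      rw [← exp_add]; congr 1; push_cast; ring
    rw [h4]
    have := hne τ
    field_simp
  simp only [h2]
  rw [intervalIntegral.integral_const_mul, ← mul_assoc]
  congr 1
  field_simp

theorem laplace_est {η σ R : ℝ} (hη : 0 < η) (hησ : η < σ) (hσ1 : σ ≤ 1) (hR : 2 ≤ R)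
    {F0 : ℂ → ℂ} {U : Set ℂ} (hU : IsOpen U) (hF : DifferentiableOn ℂ F0 U)
    (hsub : ∀ z : ℂ, η ≤ z.re → z.re ≤ σ → -σ ≤ z.im → z.im ≤ σ → z ∈ U) {M m : ℝ}
    (hM : ∀ τ ∈ Icc (-σ) σ, ‖F0 (η + τ * I)‖ ≤ M)
    (hm : ∀ z : ℂ, η ≤ z.re → z.re ≤ σ → -σ ≤ z.im → z.im ≤ σ → σ ≤ ‖z‖ → ‖F0 z‖ ≤ m)
    {s : ℂ} (hs : η < s.re) (hs2 : ‖s‖ ≤ σ / 2) :
    ‖(∫ r in Icc (2 : ℝ) R, Gop η σ (fun τ => F0 (η + τ * I)) r * exp (-2 * s * (r - 1))) - F0 s‖
      ≤ σ * M * Real.exp (-(2 * (s.re - η) * (R - 1))) / (s.re - η) + 40 * m := by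
  have hσ : 0 < σ := hη.trans hησ
  have hσ' : -σ ≤ σ := by linarith
  have hre : s.re ≤ σ / 2 := (re_le_norm s).trans hs2
  have him : |s.im| ≤ σ / 2 := (abs_im_le_norm s).trans hs2
  rw [abs_le] at him
  have hM0 : 0 ≤ M := (norm_nonneg _).trans (hM 0 ⟨by linarith, hσ.le⟩)
  have hm0 : 0 ≤ m := (norm_nonneg _).trans (hm (σ : ℂ) (by simpa using hησ.le) (by simp)
    (by simpa using hσ.le) (by simpa using hσ.le) (by rw [norm_real, Real.norm_eq_abs, abs_of_pos hσ]))
  have hcont : ContinuousOn (fun τ : ℝ => F0 (η + τ * I)) (Icc (-σ) σ) := by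
    apply hF.continuousOn.comp (by fun_prop)
    intro τ hτ
    apply hsub <;> simp [hησ.le, hτ.1, hτ.2]
  have hne : ∀ τ : ℝ, (η : ℂ) + τ * I - s ≠ 0 := by
    intro τ h
    have := congrArg Complex.re h
    simp at this
    linarith
  rw [laplace_Gop hσ hR hcont hs]
  -- Cauchy
  have hC := cauchy_rect (x0 := η) (x1 := σ) (y0 := -σ) (y1 := σ) (s := s) hs (by linarith)
    (by linarith) (by linarith) hU (F := fun z => F0 z * exp (2 * (z - s)))
    (hF.mul (by fun_prop)) hsub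
  simp only [sub_self, mul_zero, exp_zero, mul_one] at hC
  -- split the integral
  have hs1 : ∫ τ in (-σ)..σ, F0 (η + τ * I) *
          ((exp (2 * (η + τ * I - s) * (R - 1)) - exp (2 * (η + τ * I - s))) / (η + τ * I - s))
      = (∫ τ in (-σ)..σ, F0 (η + τ * I) * exp (2 * (η + τ * I - s) * (R - 1)) / (η + τ * I - s))
        - ∫ τ in (-σ)..σ, F0 (η + τ * I) * exp (2 * (η + τ * I - s)) / (η + τ * I - s) := by
    rw [← intervalIntegral.integral_sub]
    · apply intervalIntegral.integral_congr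
      intro τ _
      simp only
      ring
    · apply ContinuousOn.intervalIntegrable
      rw [uIcc_of_le hσ']
      exact (hcont.mul (by fun_prop)).div (by fun_prop) (fun τ _ => hne τ)
    · apply ContinuousOn.intervalIntegrable
      rw [uIcc_of_le hσ']
      exact (hcont.mul (by fun_prop)).div (by fun_prop) (fun τ _ => hne τ)
  rw [hs1]
  set L0 := ∫ τ in (-σ)..σ, F0 (η + τ * I) * exp (2 * (η + τ * I - s)) / (η + τ * I - s) with hL0
  set L1 := ∫ τ in (-σ)..σ, F0 (η + τ * I) * exp (2 * (η + τ * I - s) * (R - 1)) / (η + τ * I - s)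
    with hL1
  set Bt := ∫ x in η..σ, F0 (x + ((-σ : ℝ) : ℂ) * I) * exp (2 * (x + ((-σ : ℝ) : ℂ) * I - s))
    / (x + ((-σ : ℝ) : ℂ) * I - s) with hBt
  set Tp := ∫ x in η..σ, F0 (x + (σ : ℂ) * I) * exp (2 * (x + (σ : ℂ) * I - s))
    / (x + (σ : ℂ) * I - s) with hTp
  set Rt := ∫ y in (-σ)..σ, F0 (σ + y * I) * exp (2 * (σ + y * I - s)) / (σ + y * I - s) with hRt
  have hpi : (Real.pi : ℂ) ≠ 0 := by exact_mod_cast Real.pi_ne_zero
  have hid : (1 / (2 * Real.pi) : ℂ) * (L1 - L0) - F0 s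
      = (1 / (2 * Real.pi) : ℂ) * L1 + (1 / (2 * Real.pi) : ℂ) * (I * (Bt - Tp) - Rt) := by
    have h3 : L0 = 2 * Real.pi * (-F0 s) + (Rt - I * (Bt - Tp)) := by
      linear_combination I * hC + (L0 + 2 * Real.pi * F0 s - Rt) * I_sq
    rw [h3]
    field_simp
    ring
  rw [hid]
  -- bounds of the pieces
  have hb1 : ‖L1‖ ≤ (M * Real.exp (-(2 * (s.re - η) * (R - 1))) / (s.re - η)) * |σ - (-σ)| := by
    apply intervalIntegral.norm_integral_le_of_norm_le_const
    intro τ hτ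
    rw [uIoc_of_le hσ'] at hτ
    rw [norm_div, norm_mul]
    have e1 : ‖exp (2 * (η + τ * I - s) * (R - 1))‖ = Real.exp (-(2 * (s.re - η) * (R - 1))) := by
      rw [norm_exp]
      congr 1
      have : (2 * ((η : ℂ) + τ * I - s) * (R - 1)) = ((2 * (R - 1) : ℝ) : ℂ) * (η + τ * I - s) := by
        push_cast; ring
      rw [this, re_ofReal_mul]
      simp
      ring
    have e2 : s.re - η ≤ ‖(η : ℂ) + τ * I - s‖ := by
      have h4 := abs_re_le_norm ((η : ℂ) + τ * I - s)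
      have h5 : ((η : ℂ) + τ * I - s).re = η - s.re := by simp
      rw [h5] at h4
      have h6 := neg_abs_le (η - s.re)
      linarith
    rw [e1]
    apply div_le_div₀ (by positivity) _ (by linarith) e2
    exact mul_le_mul_of_nonneg_right (hM τ ⟨hτ.1.le, hτ.2⟩) (Real.exp_pos _).le
  have hside : ∀ z : ℂ, η ≤ z.re → z.re ≤ σ → -σ ≤ z.im → z.im ≤ σ → σ ≤ ‖z‖ →
      ‖F0 z * exp (2 * (z - s)) / (z - s)‖ ≤ m * 9 / (σ / 2) := by
    intro z a1 a2 a3 a4 a5
    rw [norm_div, norm_mul]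
    have e1 : ‖exp (2 * (z - s))‖ ≤ 9 := by
      rw [norm_exp]
      have : (2 * (z - s)).re = 2 * (z.re - s.re) := by simp
      rw [this]
      calc Real.exp (2 * (z.re - s.re)) ≤ Real.exp 2 := Real.exp_le_exp.2 (by linarith)
        _ = Real.exp 1 * Real.exp 1 := by rw [← Real.exp_add]; norm_num
        _ ≤ 9 := by nlinarith [Real.exp_one_lt_d9, Real.exp_pos 1]
    have e2 : σ / 2 ≤ ‖z - s‖ := by
      have := norm_sub_norm_le z s
      linarith
    apply div_le_div₀ (by positivity) _ (by positivity) e2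
    exact mul_le_mul (hm z a1 a2 a3 a4 a5) e1 (norm_nonneg _) hm0
  have hb2 : ‖Bt‖ ≤ m * 9 / (σ / 2) * |σ - η| := by
    apply intervalIntegral.norm_integral_le_of_norm_le_const
    intro x hx
    rw [uIoc_of_le hησ.le] at hx
    apply hside
    · simpa using hx.1.le
    · simpa using hx.2
    · simp
    · simpa using hσ.le
    · have h4 := abs_im_le_norm ((x : ℂ) + ((-σ : ℝ) : ℂ) * I)
      have h5 : ((x : ℂ) + ((-σ : ℝ) : ℂ) * I).im = -σ := by simp
      rw [h5, abs_neg, abs_of_pos hσ] at h4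
      exact h4
  have hb3 : ‖Tp‖ ≤ m * 9 / (σ / 2) * |σ - η| := by
    apply intervalIntegral.norm_integral_le_of_norm_le_const
    intro x hx
    rw [uIoc_of_le hησ.le] at hx
    apply hside
    · simpa using hx.1.le
    · simpa using hx.2
    · simpa using hσ.le
    · simp
    · have h4 := abs_im_le_norm ((x : ℂ) + (σ : ℂ) * I)
      have h5 : ((x : ℂ) + (σ : ℂ) * I).im = σ := by simp
      rw [h5, abs_of_pos hσ] at h4
      exact h4
  have hb4 : ‖Rt‖ ≤ m * 9 / (σ / 2) * |σ - (-σ)| := by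
    apply intervalIntegral.norm_integral_le_of_norm_le_const
    intro y hy
    rw [uIoc_of_le hσ'] at hy
    apply hside
    · simpa using hησ.le
    · simp
    · simpa using hy.1.le
    · simpa using hy.2
    · have h4 := abs_re_le_norm ((σ : ℂ) + (y : ℂ) * I)
      have h5 : ((σ : ℂ) + (y : ℂ) * I).re = σ := by simp
      rw [h5, abs_of_pos hσ] at h4
      exact h4
  have hp : ‖(1 / (2 * Real.pi) : ℂ)‖ ≤ 1 / 6 := by
    have : (1 / (2 * Real.pi) : ℂ) = ((1 / (2 * Real.pi) : ℝ) : ℂ) := by push_cast; ring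
    rw [this, norm_real, Real.norm_eq_abs, abs_of_pos (by positivity)]
    apply one_div_le_one_div_of_le (by norm_num)
    linarith [Real.pi_gt_three]
  have hd1 : |σ - (-σ)| = 2 * σ := by rw [abs_of_pos (by linarith)]; ring
  have hd2 : |σ - η| ≤ σ := by rw [abs_of_pos (by linarith)]; linarith
  rw [hd1] at hb1 hb4
  have hK : 0 ≤ m * 9 / (σ / 2) := by positivity
  have hb2' : ‖Bt‖ ≤ m * 9 / (σ / 2) * σ := hb2.trans (mul_le_mul_of_nonneg_left hd2 hK)
  have hb3' : ‖Tp‖ ≤ m * 9 / (σ / 2) * σ := hb3.trans (mul_le_mul_of_nonneg_left hd2 hK)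
  have hK2 : m * 9 / (σ / 2) * σ = 18 * m := by field_simp; ring
  have hK3 : m * 9 / (σ / 2) * (2 * σ) = 36 * m := by field_simp; ring
  rw [hK2] at hb2' hb3'
  rw [hK3] at hb4
  have hE2 : ‖I * (Bt - Tp) - Rt‖ ≤ 72 * m := by
    calc _ ≤ ‖I * (Bt - Tp)‖ + ‖Rt‖ := norm_sub_le _ _
      _ ≤ (‖Bt‖ + ‖Tp‖) + ‖Rt‖ := by
          rw [norm_mul, norm_I, one_mul]
          linarith [norm_sub_le Bt Tp]
      _ ≤ 72 * m := by linarith
  set X := M * Real.exp (-(2 * (s.re - η) * (R - 1))) / (s.re - η) with hX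
  have hX0 : 0 ≤ X := by
    rw [hX]
    apply div_nonneg _ (by linarith)
    positivity
  have hfin : σ * M * Real.exp (-(2 * (s.re - η) * (R - 1))) / (s.re - η) = σ * X := by
    rw [hX]; ring
  rw [hfin]
  calc _ ≤ ‖(1 / (2 * Real.pi) : ℂ) * L1‖ + ‖(1 / (2 * Real.pi) : ℂ) * (I * (Bt - Tp) - Rt)‖ :=
        norm_add_le _ _
    _ ≤ (1 / 6) * (X * (2 * σ)) + (1 / 6) * (72 * m) := by
        rw [norm_mul, norm_mul]
        apply add_le_add
        · exact mul_le_mul hp hb1 (norm_nonneg _) (by norm_num)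
        · exact mul_le_mul hp hE2 (norm_nonneg _) (by norm_num)
    _ ≤ _ := by
        have : 0 ≤ σ * X := by positivity
        nlinarith

end Pool.Agent.Helper44.CLTd
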