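import Mathlib

/-! The weight `w` of the contour integral. -/

namespace Pool.Agent.Helper44.CLTd

open MeasureTheory Set Complex

/-- principal square root of `s / κ` -/
noncomputable def yv (κ : ℝ) (s : ℂ) : ℂ := exp (log (s / κ) / 2)

/-- the weight -/
noncomputable def wv (δ κ : ℝ) (s : ℂ) : ℂ :=
  (1 + δ) * (1 - exp (-(exp (-yv κ s) / yv κ s)))

lemma yv_ne (κ : ℝ) (s : ℂ) : yv κ s ≠ 0 := exp_ne_zero _

lemma yv_sq {κ : ℝ} (hκ : 0 < κ) {s : ℂ} (hs : s ≠ 0) : yv κ s ^ 2 = s / κ := by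
  have hκ' : (κ : ℂ) ≠ 0 := by exact_mod_cast hκ.ne'
  rw [yv, ← exp_nat_mul, Nat.cast_ofNat, mul_div_cancel₀ _ (two_ne_zero), exp_log]
  exact div_ne_zero hs hκ'

lemma div_re {κ : ℝ} (s : ℂ) : (s / κ).re = s.re / κ := by
  rw [Complex.div_ofReal_re]

lemma yv_re_pos {κ : ℝ} (hκ : 0 < κ) {s : ℂ} (hs : 0 < s.re) : 0 < (yv κ s).re := by
  rw [yv, exp_re]
  apply mul_pos (Real.exp_pos _)
  have h1 : 0 < (s / κ).re := by rw [div_re]; positivity
  have h2 : |arg (s / κ)| < Real.pi / 2 := abs_arg_lt_pi_div_two_iff.2 (Or.inl h1)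
  have h3 : (log (s / κ) / 2).im = arg (s / κ) / 2 := by
    have : (log (s / κ) / 2).im = (log (s / κ)).im / 2 := by
      have := Complex.div_ofReal_im (log (s / κ)) 2
      simpa using this
    rw [this, log_im]
  rw [h3]
  rw [abs_lt] at h2
  apply Real.cos_pos_of_mem_Ioo
  constructor <;> linarith [Real.pi_pos]

lemma yv_im_le {κ : ℝ} (hκ : 0 < κ) {s : ℂ} (hs : 0 < s.re) :
    |(yv κ s).im| ≤ (yv κ s).re := by
  have hs0 : s ≠ 0 := by rintro rfl; simp at hs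
  have h1 := yv_sq hκ hs0
  have h2 : (yv κ s ^ 2).re = s.re / κ := by rw [h1, div_re]
  have h3 : (yv κ s ^ 2).re = (yv κ s).re ^ 2 - (yv κ s).im ^ 2 := by
    rw [sq, mul_re]; ring
  have h4 : 0 < s.re / κ := by positivity
  have h5 := yv_re_pos hκ hs
  have h6 : (yv κ s).im ^ 2 ≤ (yv κ s).re ^ 2 := by linarith
  exact abs_le_of_sq_le_sq h6 h5.le

lemma yv_norm_sq {κ : ℝ} (hκ : 0 < κ) {s : ℂ} (hs : s ≠ 0) : ‖yv κ s‖ ^ 2 = ‖s‖ / κ := by
  rw [← norm_pow, yv_sq hκ hs, norm_div, norm_real, Real.norm_eq_abs, abs_of_pos hκ]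

lemma yv_of_sq {κ : ℝ} (hκ : 0 < κ) {y : ℂ} (hy : 0 < y.re) (h : 0 < ((κ : ℂ) * y ^ 2).re) :
    yv κ (κ * y ^ 2) = y := by
  have hy0 : y ≠ 0 := by rintro rfl; simp at hy
  have hκ' : (κ : ℂ) ≠ 0 := by exact_mod_cast hκ.ne'
  have h1 := yv_sq hκ (s := κ * y ^ 2) (mul_ne_zero hκ' (pow_ne_zero _ hy0))
  rw [mul_div_cancel_left₀ _ hκ'] at h1
  rcases sq_eq_sq_iff_eq_or_eq_neg.1 h1 with h2 | h2
  · exact h2
  · exfalso
    have h3 := yv_re_pos hκ h
    rw [h2, neg_re] at h3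
    linarith

lemma differentiableAt_yv {κ : ℝ} (hκ : 0 < κ) {s : ℂ} (hs : 0 < s.re) :
    DifferentiableAt ℂ (yv κ) s := by
  unfold yv
  have h1 : s / κ ∈ slitPlane := by left; rw [div_re]; positivity
  exact ((DifferentiableAt.clog (differentiableAt_id.div_const _) h1).div_const 2).cexp

lemma differentiableAt_wv (δ : ℝ) {κ : ℝ} (hκ : 0 < κ) {s : ℂ} (hs : 0 < s.re) :
    DifferentiableAt ℂ (wv δ κ) s := by
  unfold wv
  have h1 := differentiableAt_yv hκ hs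
  have h2 : DifferentiableAt ℂ (fun s => exp (-yv κ s) / yv κ s) s :=
    h1.neg.cexp.div h1 (yv_ne κ s)
  exact ((h2.neg.cexp).const_sub 1).const_mul _

lemma norm_exp_x_le {y : ℂ} (h0 : 0 < y.re) (h1 : |y.im| ≤ y.re) :
    ‖exp (-(exp (-y) / y))‖ ≤ 3 := by
  have hy0 : y ≠ 0 := by rintro rfl; simp at h0
  have key : -1 ≤ (exp (-y) / y).re := by
    by_cases hn : 1 ≤ ‖y‖
    · have h2 : ‖exp (-y) / y‖ ≤ 1 := by
        rw [norm_div, norm_exp, neg_re]
        rw [div_le_one (by positivity)]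
        calc Real.exp (-y.re) ≤ 1 := by rw [Real.exp_le_one_iff]; linarith
          _ ≤ ‖y‖ := hn
      have h3 := abs_re_le_norm (exp (-y) / y)
      have h4 := neg_abs_le (exp (-y) / y).re
      linarith
    · push Not at hn
      have h2 : (exp (-y) / y).re
          = Real.exp (-y.re) * (y.re * Real.cos y.im - y.im * Real.sin y.im) / normSq y := by
        rw [Complex.div_re, exp_re, exp_im, neg_re, neg_im, Real.cos_neg, Real.sin_neg]
        ring
      have h3 : y.im ^ 2 ≤ 1 / 2 := by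
        have h4 : ‖y‖ ^ 2 = y.re ^ 2 + y.im ^ 2 := by
          rw [← normSq_eq_norm_sq, normSq_apply]; ring
        have h5 : ‖y‖ ^ 2 ≤ 1 := by
          have := norm_nonneg y
          nlinarith
        have h6 : y.im ^ 2 ≤ y.re ^ 2 := by
          have := sq_le_sq' (by linarith [neg_abs_le y.im, abs_nonneg y.im]) h1
          rwa [sq_abs] at this
        linarith
      have h7 : |y.im| ≤ 1 := by
        have := abs_nonneg y.im
        have h8 : |y.im| ^ 2 ≤ 1 / 2 := by rwa [sq_abs]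
        nlinarith
      -- cos v ≥ 1 - v^2/2 ≥ 3/4, |v sin v| ≤ |v| * |v|
      have hc : 1 - y.im ^ 2 / 2 ≤ Real.cos y.im := Real.one_sub_sq_div_two_le_cos
      have hs : |Real.sin y.im| ≤ |y.im| := Real.abs_sin_le_abs
      have h9 : 0 ≤ y.re * Real.cos y.im - y.im * Real.sin y.im := by
        have h10 : y.im * Real.sin y.im ≤ |y.im| * |y.im| := by
          calc y.im * Real.sin y.im ≤ |y.im * Real.sin y.im| := le_abs_self _
            _ = |y.im| * |Real.sin y.im| := abs_mul _ _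
            _ ≤ _ := mul_le_mul_of_nonneg_left hs (abs_nonneg _)
        have h11 : |y.im| * (3 / 4) ≤ y.re * Real.cos y.im := by
          apply mul_le_mul h1 _ (by norm_num) h0.le
          linarith
        have h12 : |y.im| * |y.im| ≤ |y.im| * (3 / 4) := by
          apply mul_le_mul_of_nonneg_left _ (abs_nonneg _)
          have := abs_nonneg y.im
          have h8 : |y.im| ^ 2 ≤ 1 / 2 := by rwa [sq_abs]
          nlinarith
        linarith
      have h13 : 0 ≤ (exp (-y) / y).re := by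
        rw [h2]
        apply div_nonneg _ (normSq_nonneg _)
        exact mul_nonneg (Real.exp_pos _).le h9
      linarith
  rw [norm_exp, neg_re]
  have : Real.exp (-(exp (-y) / y).re) ≤ Real.exp 1 := Real.exp_le_exp.2 (by linarith)
  linarith [Real.exp_one_lt_d9]

lemma norm_wv_le {δ κ : ℝ} (h0 : 0 ≤ δ) (h1 : δ ≤ 1) (hκ : 0 < κ) {s : ℂ} (hs : 0 < s.re) :
    ‖wv δ κ s‖ ≤ 8 := by
  unfold wv
  rw [norm_mul]
  have h2 : ‖(1 : ℂ) + δ‖ ≤ 2 := by
    have : (1 : ℂ) + δ = ((1 + δ : ℝ) : ℂ) := by push_cast; ring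
    rw [this, norm_real, Real.norm_eq_abs, abs_of_nonneg (by linarith)]
    linarith
  have h3 : ‖1 - exp (-(exp (-yv κ s) / yv κ s))‖ ≤ 4 := by
    calc _ ≤ ‖(1 : ℂ)‖ + ‖exp (-(exp (-yv κ s) / yv κ s))‖ := norm_sub_le _ _
      _ ≤ 1 + 3 := by
          rw [norm_one]
          linarith [norm_exp_x_le (yv_re_pos hκ hs) (yv_im_le hκ hs)]
      _ = 4 := by norm_num
  calc _ ≤ 2 * 4 := mul_le_mul h2 h3 (norm_nonneg _) (by norm_num)
    _ = 8 := by norm_num

lemma norm_wv_far_le {δ κ x : ℝ} (h0 : 0 ≤ δ) (h1 : δ ≤ 1) (hκ : 0 < κ) (hx : 1 ≤ x) {s : ℂ}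
    (hs : 0 < s.re) (hs' : κ * x ^ 4 ≤ ‖s‖) :
    ‖wv δ κ s‖ ≤ 4 * Real.exp (-x ^ 2 / 2) := by
  have hs0 : s ≠ 0 := by rintro rfl; simp at hs
  have hn := yv_norm_sq hκ hs0
  set y := yv κ s with hy
  have hre : 0 < y.re := yv_re_pos hκ hs
  have him : |y.im| ≤ y.re := yv_im_le hκ hs
  have h2 : (x ^ 2) ^ 2 ≤ ‖y‖ ^ 2 := by
    rw [hn, le_div_iff₀ hκ]
    calc (x ^ 2) ^ 2 * κ = κ * x ^ 4 := by ring
      _ ≤ _ := hs'
  have h3 : x ^ 2 ≤ ‖y‖ := by
    exact le_of_sq_le_sq h2 (norm_nonneg _) |> fun h => h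
  have h4 : ‖y‖ ≤ 2 * y.re := by
    calc ‖y‖ ≤ |y.re| + |y.im| := norm_le_abs_re_add_abs_im y
      _ ≤ 2 * y.re := by rw [abs_of_pos hre]; linarith
  have h5 : ‖exp (-y) / y‖ ≤ Real.exp (-x ^ 2 / 2) := by
    rw [norm_div, norm_exp, neg_re]
    have hy1 : 1 ≤ ‖y‖ := by nlinarith
    calc Real.exp (-y.re) / ‖y‖ ≤ Real.exp (-y.re) / 1 := by
          apply div_le_div_of_nonneg_left (Real.exp_pos _).le one_pos hy1
      _ = Real.exp (-y.re) := by ring
      _ ≤ _ := Real.exp_le_exp.2 (by linarith)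
  have h6 : Real.exp (-x ^ 2 / 2) ≤ 1 := by
    rw [Real.exp_le_one_iff]; nlinarith
  have h7 : ‖1 - exp (-(exp (-y) / y))‖ ≤ 2 * Real.exp (-x ^ 2 / 2) := by
    rw [norm_sub_rev]
    calc _ ≤ 2 * ‖-(exp (-y) / y)‖ := Complex.norm_exp_sub_one_le (by rw [norm_neg]; linarith)
      _ ≤ _ := by rw [norm_neg]; linarith
  have h8 : ‖(1 : ℂ) + δ‖ ≤ 2 := by
    have : (1 : ℂ) + δ = ((1 + δ : ℝ) : ℂ) := by push_cast; ring
    rw [this, norm_real, Real.norm_eq_abs, abs_of_nonneg (by linarith)]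
    linarith
  unfold wv
  rw [norm_mul]
  calc _ ≤ 2 * (2 * Real.exp (-x ^ 2 / 2)) :=
        mul_le_mul h8 h7 (norm_nonneg _) (by norm_num)
    _ = _ := by ring

end Pool.Agent.Helper44.CLTd
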