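import Pool.Agent.Helper44.CLTd.Fixed
import Pool.Agent.Helper44.CLTd.Weight

/-! Many solutions of `w + ε = 1`. -/

namespace Pool.Agent.Helper44.CLTd

open MeasureTheory Set Complex Metric

lemma region {N κ : ℝ} (hN : 0 < N) (hκ : 0 < κ) {y : ℂ} (h : ‖N * y - 1‖ ≤ 1 / 4) :
    0 < y.re ∧ κ / (2 * N ^ 2) < ‖κ * y ^ 2‖ ∧ ‖κ * y ^ 2‖ < 2 * κ / N ^ 2 ∧
      ‖κ * y ^ 2‖ / 2 < (κ * y ^ 2).re ∧ |(κ * y ^ 2).im| ≤ (κ * y ^ 2).re ∧ N * ‖y‖ ≤ 5 / 4 := by
  have h1 : |N * y.re - 1| ≤ 1 / 4 := by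
    have := abs_re_le_norm (N * y - 1)
    have h2 : (N * y - 1).re = N * y.re - 1 := by simp
    rw [h2] at this
    exact this.trans h
  have h2 : |N * y.im| ≤ 1 / 4 := by
    have := abs_im_le_norm (N * y - 1)
    have h2 : (N * y - 1).im = N * y.im := by simp
    rw [h2] at this
    exact this.trans h
  have h3 : N * ‖y‖ ≤ 5 / 4 := by
    have h4 : ‖(N : ℂ) * y‖ = N * ‖y‖ := by
      rw [norm_mul, norm_real, Real.norm_eq_abs, abs_of_pos hN]
    rw [← h4]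
    have := norm_add_le ((N : ℂ) * y - 1) 1
    rw [sub_add_cancel, norm_one] at this
    linarith
  rw [abs_le] at h1 h2
  set a := N * y.re with ha
  set b := N * y.im with hb
  have hre : y.re = a / N := by rw [ha]; field_simp
  have him : y.im = b / N := by rw [hb]; field_simp
  have hn : ‖κ * y ^ 2‖ = κ / N ^ 2 * (a ^ 2 + b ^ 2) := by
    rw [norm_mul, norm_pow, norm_real, Real.norm_eq_abs, abs_of_pos hκ, ← normSq_eq_norm_sq,
      normSq_apply, hre, him]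
    field_simp
  have hr : (κ * y ^ 2).re = κ / N ^ 2 * (a ^ 2 - b ^ 2) := by
    rw [re_ofReal_mul, sq, mul_re, hre, him]
    field_simp
  have hi : (κ * y ^ 2).im = κ / N ^ 2 * (2 * a * b) := by
    rw [im_ofReal_mul, sq, mul_im, hre, him]
    field_simp
    ring
  have hK : 0 < κ / N ^ 2 := by positivity
  have ha1 : 3 / 4 ≤ a := by linarith [h1.1]
  have hb2 : b ^ 2 ≤ 1 / 16 := by nlinarith [h2.1, h2.2]
  have ha2 : 9 / 16 ≤ a ^ 2 := by nlinarith
  have hy2 : a ^ 2 + b ^ 2 ≤ 25 / 16 := by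
    have h5 : (N * ‖y‖) ^ 2 ≤ (5 / 4) ^ 2 := by
      have := norm_nonneg y
      apply pow_le_pow_left₀ (by positivity) h3
    have h6 : (N * ‖y‖) ^ 2 = a ^ 2 + b ^ 2 := by
      rw [mul_pow, ← normSq_eq_norm_sq, normSq_apply, ha, hb]; ring
    rw [h6] at h5
    linarith
  have e1 : κ / (2 * N ^ 2) = κ / N ^ 2 * (1 / 2) := by field_simp
  have e2 : 2 * κ / N ^ 2 = κ / N ^ 2 * 2 := by field_simp
  rw [hn, hr, hi, e1, e2]
  refine ⟨?_, ?_, ?_, ?_, ?_, h3⟩
  · rw [hre]; apply div_pos _ hN; linarith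
  · apply mul_lt_mul_of_pos_left _ hK; nlinarith [sq_nonneg b]
  · apply mul_lt_mul_of_pos_left _ hK; linarith
  · rw [mul_div_assoc]
    apply mul_lt_mul_of_pos_left _ hK; linarith
  · rw [abs_mul, abs_of_pos hK]
    apply mul_le_mul_of_nonneg_left _ hK.le
    rw [abs_le]
    constructor <;> nlinarith [h2.1, h2.2]

theorem exists_zero {N κ δ : ℝ} (hN : 300 ≤ N) (hκ : 0 < κ) (hδ : 0 < δ) {ε : ℂ → ℂ}
    (hεd : ∀ s : ℂ, κ / (2 * N ^ 2) < ‖s‖ → ‖s‖ < 2 * κ / N ^ 2 → ‖s‖ / 2 < s.re →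
      DifferentiableAt ℂ ε s)
    (hεb : ∀ s : ℂ, κ / (2 * N ^ 2) < ‖s‖ → ‖s‖ < 2 * κ / N ^ 2 → ‖s‖ / 2 < s.re →
      ‖ε s‖ ≤ δ / 2) (k : ℤ) (hk : |(k : ℝ)| ≤ N / 50) :
    ∃ y : ℂ, ‖N * y - 1‖ ≤ 1 / 4 ∧
      exp (-y) / y = N + k * (2 * Real.pi * I) - log (1 + ε (κ * y ^ 2) / δ) := by
  have hN0 : 0 < N := by linarith
  have hNc : (N : ℂ) ≠ 0 := by exact_mod_cast hN0.ne'
  set z : ℂ := N + k * (2 * Real.pi * I) with hz
  have hzre : z.re = N := by
    rw [hz]; simp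
  have hznorm : N ≤ ‖z‖ := by
    rw [← hzre]; exact re_le_norm z
  have hz0 : z ≠ 0 := by rintro h; rw [h, zero_re] at hzre; linarith
  have hcen : ‖N * (1 / z) - 1‖ ≤ 13 / 100 := by
    have e1 : (N : ℂ) * (1 / z) - 1 = -(k * (2 * Real.pi * I)) / z := by
      field_simp
      rw [hz]; ring
    rw [e1, norm_div, norm_neg, norm_mul, norm_mul, norm_mul, norm_I, norm_real, Real.norm_eq_abs,
      abs_of_pos Real.pi_pos, div_le_iff₀ (by linarith)]
    have e2 : ‖(k : ℂ)‖ = |(k : ℝ)| := by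
      rw [← ofReal_intCast, norm_real, Real.norm_eq_abs]
    rw [e2]
    have e3 : ‖(2 : ℂ)‖ = 2 := by simp
    rw [e3]
    have h4 : |(k : ℝ)| * (2 * Real.pi * 1) ≤ N / 50 * (2 * 3.15) := by
      apply mul_le_mul hk _ (by positivity) (by positivity)
      linarith [Real.pi_lt_d2]
    nlinarith
  set ρ : ℝ := 1 / (20 * N) with hρ
  have hρ0 : 0 < ρ := by positivity
  have hball : ∀ y ∈ ball (1 / z) (2 * ρ), ‖N * y - 1‖ ≤ 1 / 4 := by
    intro y hy
    rw [mem_ball, dist_eq_norm] at hy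
    have e1 : (N : ℂ) * y - 1 = N * (y - 1 / z) + (N * (1 / z) - 1) := by ring
    rw [e1]
    calc _ ≤ ‖(N : ℂ) * (y - 1 / z)‖ + ‖N * (1 / z) - 1‖ := norm_add_le _ _
      _ ≤ N * (2 * ρ) + 13 / 100 := by
          rw [norm_mul, norm_real, Real.norm_eq_abs, abs_of_pos hN0]
          exact add_le_add (mul_le_mul_of_nonneg_left hy.le hN0.le) hcen
      _ ≤ 1 / 4 := by
          rw [hρ]; field_simp; norm_num
  -- the logarithm
  have heps : ∀ y : ℂ, ‖N * y - 1‖ ≤ 1 / 4 → ‖ε (κ * y ^ 2) / δ‖ ≤ 1 / 2 := by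
    intro y hy
    obtain ⟨-, r1, r2, r3, -, -⟩ := region hN0 hκ hy
    rw [norm_div, norm_real, Real.norm_eq_abs, abs_of_pos hδ, div_le_iff₀ hδ]
    linarith [hεb _ r1 r2 r3]
  have hlog : ∀ y : ℂ, ‖N * y - 1‖ ≤ 1 / 4 → ‖log (1 + ε (κ * y ^ 2) / δ)‖ ≤ 1 := by
    intro y hy
    have h1 := heps y hy
    have h2 := Complex.norm_log_one_add_half_le_self h1
    linarith
  have hden : ∀ y : ℂ, ‖N * y - 1‖ ≤ 1 / 4 → N - 1 ≤ ‖z - log (1 + ε (κ * y ^ 2) / δ)‖ := by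
    intro y hy
    have h1 := hlog y hy
    have h2 := norm_sub_norm_le z (log (1 + ε (κ * y ^ 2) / δ))
    linarith
  have hden0 : ∀ y : ℂ, ‖N * y - 1‖ ≤ 1 / 4 → z - log (1 + ε (κ * y ^ 2) / δ) ≠ 0 := by
    intro y hy h
    have h1 := hden y hy
    rw [h, norm_zero] at h1
    linarith
  obtain ⟨y, hy, hfy⟩ := exists_fixed_disc (c := 1 / z) hρ0
    (Θ := fun y => exp (-y) / (z - log (1 + ε (κ * y ^ 2) / δ))) (by
      intro y hy
      apply DifferentiableAt.differentiableWithinAt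
      have hy' := hball y hy
      obtain ⟨-, r1, r2, r3, -, -⟩ := region hN0 hκ hy'
      have d1 : DifferentiableAt ℂ (fun y : ℂ => ε (κ * y ^ 2)) y := by
        have := hεd _ r1 r2 r3
        exact this.comp y (by fun_prop)
      have d2 : DifferentiableAt ℂ (fun y : ℂ => log (1 + ε (κ * y ^ 2) / δ)) y := by
        apply DifferentiableAt.clog
        · exact (d1.div_const _).const_add 1
        · apply mem_slitPlane_of_norm_lt_one
          linarith [heps y hy']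
      exact (by fun_prop : DifferentiableAt ℂ (fun y : ℂ => exp (-y)) y).div (d2.const_sub z)
        (hden0 y hy')) (by
      intro y hy
      have hy' := hball y hy
      obtain ⟨-, -, -, -, -, r4⟩ := region hN0 hκ hy'
      have h1 := hlog y hy'
      have h2 := hden y hy'
      have h0 := hden0 y hy'
      set ℓ := log (1 + ε (κ * y ^ 2) / δ)
      have e1 : exp (-y) / (z - ℓ) - 1 / z = (exp (-y) - 1) / (z - ℓ) + ℓ / (z * (z - ℓ)) := by
        field_simp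
        ring
      rw [e1]
      have hyn : ‖y‖ ≤ 5 / (4 * N) := by
        rw [le_div_iff₀ (by positivity)]; linarith
      have hy1 : ‖y‖ ≤ 1 := by
        refine hyn.trans ?_
        rw [div_le_one (by positivity)]; linarith
      have h3 : ‖exp (-y) - 1‖ ≤ 5 / (2 * N) := by
        calc _ ≤ 2 * ‖-y‖ := Complex.norm_exp_sub_one_le (by rwa [norm_neg])
          _ ≤ 2 * (5 / (4 * N)) := by rw [norm_neg]; linarith
          _ = _ := by field_simp; norm_num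
      have hN1 : 0 < N - 1 := by linarith
      calc _ ≤ ‖(exp (-y) - 1) / (z - ℓ)‖ + ‖ℓ / (z * (z - ℓ))‖ := norm_add_le _ _
        _ ≤ 5 / (2 * N) / (N - 1) + 1 / (N * (N - 1)) := by
            rw [norm_div, norm_div, norm_mul]
            apply add_le_add
            · apply div_le_div₀ (by positivity) h3 hN1 h2
            · apply div_le_div₀ zero_le_one h1 (by positivity)
              exact mul_le_mul hznorm h2 hN1.le (norm_nonneg _)
        _ = (7 / 2) / (N * (N - 1)) := by field_simp; norm_num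
        _ ≤ ρ / 4 := by
            have e2 : ρ / 4 = 1 / (80 * N) := by rw [hρ]; field_simp; norm_num
            rw [e2, div_le_div_iff₀ (by positivity) (by positivity)]
            nlinarith)
  have hyb : y ∈ ball (1 / z) (2 * ρ) := closedBall_subset_ball (by linarith) hy
  have hy' := hball y hyb
  refine ⟨y, hy', ?_⟩
  obtain ⟨r0, -, -, -, -, r4⟩ := region hN0 hκ hy'
  have hy0 : y ≠ 0 := by rintro rfl; simp at r0
  have h0 := hden0 y hy'
  rw [div_eq_iff h0] at hfy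
  rw [div_eq_iff hy0, hfy]
  ring

theorem zeros {N : ℕ} (hN : 300 ≤ N) {κ δ : ℝ} (hκ : 0 < κ) (hδ : 0 < δ)
    (hδN : (1 + δ) * Real.exp (-N) = δ) {ε : ℂ → ℂ}
    (hεd : ∀ s : ℂ, κ / (2 * (N : ℝ) ^ 2) < ‖s‖ → ‖s‖ < 2 * κ / (N : ℝ) ^ 2 → ‖s‖ / 2 < s.re →
      DifferentiableAt ℂ ε s)
    (hεb : ∀ s : ℂ, κ / (2 * (N : ℝ) ^ 2) < ‖s‖ → ‖s‖ < 2 * κ / (N : ℝ) ^ 2 → ‖s‖ / 2 < s.re →
      ‖ε s‖ ≤ δ / 2) :
    ∃ S : Finset ℂ, (N : ℝ) / 100 ≤ S.card ∧ ∀ s ∈ S, κ / (2 * (N : ℝ) ^ 2) < ‖s‖ ∧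
      ‖s‖ < 2 * κ / (N : ℝ) ^ 2 ∧ ‖s‖ / 2 < s.re ∧ |s.im| ≤ s.re ∧ wv δ κ s + ε s = 1 := by
  classical
  have hN' : (300 : ℝ) ≤ N := by exact_mod_cast hN
  have hN0 : (0 : ℝ) < N := by linarith
  set m : ℤ := ((N / 50 : ℕ) : ℤ) with hm
  have hmle : (m : ℝ) ≤ (N : ℝ) / 50 := by
    rw [hm]
    have h := Nat.div_mul_le_self N 50
    rw [le_div_iff₀ (by norm_num)]
    exact_mod_cast h
  have hmge : (N : ℝ) / 50 - 1 ≤ m := by
    rw [hm]
    have h := Nat.lt_div_mul_add (a := N) (b := 50) (by norm_num)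
    have h' : (N : ℝ) < ((N / 50 : ℕ) : ℝ) * 50 + 50 := by exact_mod_cast h
    rw [Int.cast_natCast]
    linarith
  have H : ∀ k : ℤ, k ∈ Finset.Icc (-m) m → ∃ y : ℂ, ‖(N : ℝ) * y - 1‖ ≤ 1 / 4 ∧
      exp (-y) / y = (N : ℝ) + k * (2 * Real.pi * I) - log (1 + ε (κ * y ^ 2) / δ) := by
    intro k hk
    apply exists_zero hN' hκ hδ hεd hεb k
    rw [Finset.mem_Icc] at hk
    rw [abs_le]
    have h1 : (-m : ℝ) ≤ k := by exact_mod_cast hk.1
    have h2 : (k : ℝ) ≤ m := by exact_mod_cast hk.2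
    constructor <;> linarith
  choose! y hy1 hy2 using H
  have hreg := fun k hk => region hN0 hκ (hy1 k hk)
  have hyv : ∀ k ∈ Finset.Icc (-m) m, yv κ (κ * y k ^ 2) = y k := by
    intro k hk
    obtain ⟨r0, r1, r2, r3, r4, r5⟩ := hreg k hk
    apply yv_of_sq hκ r0
    have := norm_nonneg ((κ : ℂ) * y k ^ 2)
    linarith
  refine ⟨(Finset.Icc (-m) m).image (fun k => (κ : ℂ) * y k ^ 2), ?_, ?_⟩
  · rw [Finset.card_image_of_injOn, Int.card_Icc]
    · have h1 : ((m + 1 - -m).toNat : ℤ) = m + 1 - -m := Int.toNat_of_nonneg (by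
        have : (0 : ℤ) ≤ m := by rw [hm]; positivity
        linarith)
      have h2 : ((m + 1 - -m).toNat : ℝ) = (m : ℝ) + 1 - -m := by exact_mod_cast h1
      rw [h2]
      linarith
    · intro k hk k' hk' hkk
      simp only at hkk
      have e1 := hyv k hk
      have e2 := hyv k' hk'
      have e3 : y k = y k' := by rw [← e1, ← e2, hkk]
      have e4 := hy2 k hk
      have e5 := hy2 k' hk'
      rw [e3, e5] at e4
      have e6 : ((k' : ℂ) - k) * (2 * Real.pi * I) = 0 := by linear_combination e4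
      rcases mul_eq_zero.1 e6 with h | h
      · have : (k' : ℂ) = k := sub_eq_zero.1 h
        exact_mod_cast this.symm
      · exact absurd h two_pi_I_ne_zero
  · intro s hs
    rw [Finset.mem_image] at hs
    obtain ⟨k, hk, rfl⟩ := hs
    obtain ⟨r0, r1, r2, r3, r4, r5⟩ := hreg k hk
    refine ⟨r1, r2, r3, r4, ?_⟩
    have e1 := hyv k hk
    have e2 := hy2 k hk
    have hb := hεb _ r1 r2 r3
    rw [wv, e1, e2]
    have hδc : (δ : ℂ) ≠ 0 := by exact_mod_cast hδ.ne'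
    have hne : 1 + ε (κ * y k ^ 2) / δ ≠ 0 := by
      intro h
      have h1 : ‖ε (κ * y k ^ 2) / δ‖ ≤ 1 / 2 := by
        rw [norm_div, norm_real, Real.norm_eq_abs, abs_of_pos hδ, div_le_iff₀ hδ]
        linarith
      have h2 : ε (κ * y k ^ 2) / δ = -1 := by linear_combination h
      rw [h2, norm_neg, norm_one] at h1
      norm_num at h1
    have e3 : exp (-(((N : ℝ) : ℂ) + k * (2 * Real.pi * I) - log (1 + ε (κ * y k ^ 2) / δ)))
        = (Real.exp (-N) : ℂ) * (1 + ε (κ * y k ^ 2) / δ) := by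
      have : -(((N : ℝ) : ℂ) + k * (2 * Real.pi * I) - log (1 + ε (κ * y k ^ 2) / δ))
          = ((-N : ℝ) : ℂ) + ((-k : ℤ) : ℂ) * (2 * Real.pi * I)
            + log (1 + ε (κ * y k ^ 2) / δ) := by
        push_cast; ring
      rw [this, exp_add, exp_add, exp_log hne, exp_int_mul_two_pi_mul_I, mul_one, ofReal_exp]
    rw [e3]
    have e4 : ((1 : ℂ) + δ) * (Real.exp (-N) : ℂ) = δ := by
      have := congrArg (fun x : ℝ => (x : ℂ)) hδN
      rw [ofReal_mul, ofReal_add, ofReal_one] at this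
      exact this
    have e5 : ((1 : ℂ) + δ) * (1 - (Real.exp (-N) : ℂ) * (1 + ε (κ * y k ^ 2) / δ))
        = (1 + δ) - δ * (1 + ε (κ * y k ^ 2) / δ) := by
      linear_combination (-(1 + ε (κ * y k ^ 2) / δ)) * e4
    rw [e5]
    field_simp
    ring

end Pool.Agent.Helper44.CLTd
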