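import Pool.Agent.Helper98.CLTd.Radial
import Pool.Agent.Helper44.CLTd.Laplace
import Pool.Agent.Helper44.CLTd.Zeros

/-! The complex analysis module `ca_main`. -/

namespace Pool.Agent.Helper44.CLTd

open Pool.Agent.Helper98.CLTd
open MeasureTheory Set
open scoped ComplexConjugate ENNReal

lemma asym : ∃ N₀ : ℕ, ∀ N : ℕ, N₀ ≤ N → 300 ≤ N ∧
    224 * (N : ℝ) ^ 56 * Real.exp (-(N : ℝ) ^ 2 / 8) ≤ Real.exp (-N) / 2 := by
  have h1 : Filter.Tendsto (fun N : ℕ => (N : ℝ) ^ 56 * Real.exp (-N)) Filter.atTop (nhds 0) :=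
    (Real.tendsto_pow_mul_exp_neg_atTop_nhds_zero 56).comp tendsto_natCast_atTop_atTop
  have h2 := h1.eventually (gt_mem_nhds (show (0 : ℝ) < 1 / 448 by norm_num))
  obtain ⟨N₁, hN₁⟩ := Filter.eventually_atTop.1 h2
  refine ⟨max N₁ 300, fun N hN => ⟨(le_max_right _ _).trans hN, ?_⟩⟩
  have h3 := hN₁ N ((le_max_left _ _).trans hN)
  have h4 : (300 : ℝ) ≤ N := by exact_mod_cast (le_max_right _ _).trans hN
  have h5 : Real.exp (-(N : ℝ) ^ 2 / 8) ≤ Real.exp (-N) * Real.exp (-N) := by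
    rw [← Real.exp_add]
    apply Real.exp_le_exp.2
    nlinarith
  have h6 : 0 < Real.exp (-(N : ℝ)) := Real.exp_pos _
  calc 224 * (N : ℝ) ^ 56 * Real.exp (-(N : ℝ) ^ 2 / 8)
      ≤ 224 * (N : ℝ) ^ 56 * (Real.exp (-N) * Real.exp (-N)) :=
        mul_le_mul_of_nonneg_left h5 (by positivity)
    _ = 224 * ((N : ℝ) ^ 56 * Real.exp (-N)) * Real.exp (-N) := by ring
    _ ≤ 224 * (1 / 448) * Real.exp (-N) := by
        apply mul_le_mul_of_nonneg_right _ h6.le
        linarith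
    _ = _ := by ring

lemma differentiable_laplace {R : ℝ} {f : ℝ → ℂ} {C : ℝ}
    (hf : AEStronglyMeasurable f (volume.restrict (Icc 2 R))) (hC : ∀ r ∈ Icc 2 R, ‖f r‖ ≤ C) :
    Differentiable ℂ
      (fun s : ℂ => ∫ r in Icc (2 : ℝ) R, f r * Complex.exp (-2 * s * (r - 1))) := by
  by_cases hR : 2 ≤ R
  swap
  · have : Icc (2 : ℝ) R = ∅ := Icc_eq_empty hR
    rw [this]
    simp
  have hC0 : 0 ≤ C := (norm_nonneg _).trans (hC 2 ⟨le_rfl, hR⟩)
  intro s₀
  have hexp : ∀ s : ℂ, ∀ r ∈ Icc (2 : ℝ) R, ‖s‖ ≤ ‖s₀‖ + 1 →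
      ‖Complex.exp (-2 * s * (r - 1))‖ ≤ Real.exp (2 * (‖s₀‖ + 1) * R) := by
    intro s r hr hs
    rw [Complex.norm_exp]
    apply Real.exp_le_exp.2
    calc (-2 * s * ((r : ℂ) - 1)).re ≤ ‖-2 * s * ((r : ℂ) - 1)‖ := Complex.re_le_norm _
      _ = 2 * ‖s‖ * (r - 1) := by
          rw [norm_mul, norm_mul, norm_neg]
          have : (r : ℂ) - 1 = ((r - 1 : ℝ) : ℂ) := by push_cast; ring
          rw [this, Complex.norm_real, Real.norm_eq_abs, abs_of_nonneg (by linarith [hr.1])]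
          simp
      _ ≤ 2 * (‖s₀‖ + 1) * R := by
          apply mul_le_mul (by linarith) (by linarith [hr.2]) (by linarith [hr.1]) (by positivity)
  have key := hasDerivAt_integral_of_dominated_loc_of_deriv_le (𝕜 := ℂ)
    (μ := volume.restrict (Icc (2 : ℝ) R)) (x₀ := s₀) (s := Metric.ball s₀ 1)
    (F := fun s r => f r * Complex.exp (-2 * s * (r - 1)))
    (F' := fun s r => f r * (Complex.exp (-2 * s * (r - 1)) * (-2 * (r - 1))))
    (bound := fun _ => C * (Real.exp (2 * (‖s₀‖ + 1) * R) * (2 * R)))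
    (Metric.ball_mem_nhds _ one_pos)
    (Filter.Eventually.of_forall fun s => hf.mul (by
      apply Continuous.aestronglyMeasurable; fun_prop))
    (by
      apply Integrable.mono' (g := fun _ => C * Real.exp (2 * (‖s₀‖ + 1) * R))
      · exact integrable_const _
      · exact hf.mul (by apply Continuous.aestronglyMeasurable; fun_prop)
      · rw [ae_restrict_iff' measurableSet_Icc]
        refine Filter.Eventually.of_forall fun r hr => ?_
        rw [norm_mul]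
        exact mul_le_mul (hC r hr) (hexp s₀ r hr (by linarith)) (norm_nonneg _) hC0)
    (hf.mul (by apply Continuous.aestronglyMeasurable; fun_prop))
    (by
      rw [ae_restrict_iff' measurableSet_Icc]
      refine Filter.Eventually.of_forall fun r hr s hs => ?_
      have hs' : ‖s‖ ≤ ‖s₀‖ + 1 := by
        rw [Metric.mem_ball, dist_eq_norm] at hs
        have := norm_add_le (s - s₀) s₀
        rw [sub_add_cancel] at this
        linarith
      rw [norm_mul, norm_mul]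
      apply mul_le_mul (hC r hr) _ (by positivity) hC0
      apply mul_le_mul (hexp s r hr hs') _ (norm_nonneg _) (Real.exp_pos _).le
      have : (-2 * ((r : ℂ) - 1)) = ((-2 * (r - 1) : ℝ) : ℂ) := by push_cast; ring
      rw [this, Complex.norm_real, Real.norm_eq_abs, abs_mul, abs_neg, abs_two,
        abs_of_nonneg (by linarith [hr.1])]
      linarith [hr.2])
    (integrable_const _)
    (by
      refine Filter.Eventually.of_forall fun r s _ => ?_
      apply HasDerivAt.const_mul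
      apply HasDerivAt.cexp
      have h1 : HasDerivAt (fun s : ℂ => s * (-2 * ((r : ℂ) - 1))) (1 * (-2 * ((r : ℂ) - 1))) s :=
        (hasDerivAt_id s).mul_const _
      rw [one_mul] at h1
      refine h1.congr_of_eventuallyEq (Filter.Eventually.of_forall fun s => ?_)
      simp only
      ring)
  exact key.2.differentiableAt

lemma continuousOn_extC {R : ℝ} (a : C(Icc (2 : ℝ) R, ℂ)) : ContinuousOn (extC a) (Icc 2 R) := by
  rw [continuousOn_iff_continuous_domRestrict]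
  have : (Icc (2 : ℝ) R).domRestrict (extC a) = a := by
    ext x
    simp [extC, domRestrict_apply]
  rw [this]
  exact a.continuous

lemma extC_of_mem {R : ℝ} (a : C(Icc (2 : ℝ) R, ℂ)) {r : ℝ} (h : r ∈ Icc (2 : ℝ) R) :
    extC a r = a ⟨r, h⟩ := by
  simp [extC, h]

lemma numeric {n κ σ R B1 x : ℝ} (hn : 300 ≤ n) (hκ : 0 < κ) (hσ : σ = κ * n ^ 4)
    (hR : R = n ^ 4 / κ) (hR2 : 2 ≤ R) (hB1 : 0 ≤ B1) (hx : κ / (8 * n ^ 2) ≤ x) :
    σ * (8 * B1) * Real.exp (-(2 * x * (R - 1))) / x + 40 * (4 * Real.exp (-n ^ 2 / 2) * B1)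
      ≤ 224 * n ^ 6 * Real.exp (-n ^ 2 / 8) * B1 := by
  have hn0 : 0 < n := by linarith
  have hgap0 : 0 < κ / (8 * n ^ 2) := by positivity
  have hσ0 : 0 < σ := by rw [hσ]; positivity
  have hexp : Real.exp (-(2 * x * (R - 1))) ≤ Real.exp (-n ^ 2 / 8) := by
    apply Real.exp_le_exp.2
    have h9 : κ / (8 * n ^ 2) * (R / 2) ≤ x * (R - 1) :=
      mul_le_mul hx (by linarith) (by linarith) (by linarith)
    have h10 : κ / (8 * n ^ 2) * (R / 2) = n ^ 2 / 16 := by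
      rw [hR]; field_simp; norm_num
    rw [h10] at h9
    linarith
  have hexp2 : Real.exp (-n ^ 2 / 2) ≤ Real.exp (-n ^ 2 / 8) := by
    apply Real.exp_le_exp.2; nlinarith
  have hq : σ * (8 * B1) * Real.exp (-(2 * x * (R - 1))) / x
      ≤ 64 * n ^ 6 * B1 * Real.exp (-n ^ 2 / 8) := by
    calc σ * (8 * B1) * Real.exp (-(2 * x * (R - 1))) / x
        ≤ σ * (8 * B1) * Real.exp (-n ^ 2 / 8) / (κ / (8 * n ^ 2)) := by
          apply div_le_div₀ (by positivity) _ hgap0 hx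
          exact mul_le_mul_of_nonneg_left hexp (by positivity)
      _ = 64 * n ^ 6 * B1 * Real.exp (-n ^ 2 / 8) := by
          rw [hσ]; field_simp; ring
  have hn6 : 1 ≤ n ^ 6 := one_le_pow₀ (by linarith)
  set E := Real.exp (-n ^ 2 / 8)
  have hE0 : 0 < E := Real.exp_pos _
  calc _ ≤ 64 * n ^ 6 * B1 * E + 40 * (4 * E * B1) := by
        apply add_le_add hq
        apply mul_le_mul_of_nonneg_left _ (by norm_num)
        apply mul_le_mul_of_nonneg_right _ hB1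
        linarith
    _ = 64 * n ^ 6 * (E * B1) + 160 * 1 * (E * B1) := by ring
    _ ≤ 64 * n ^ 6 * (E * B1) + 160 * n ^ 6 * (E * B1) := by
        have : 0 ≤ E * B1 := by positivity
        gcongr
    _ = _ := by ring

/-- (CA) -/
theorem ca_main : ∃ N₀ : ℕ, ∀ N : ℕ, N₀ ≤ N → ∀ κ σ R : ℝ, 0 < κ → σ = κ * (N : ℝ) ^ 4 → σ ≤ 1 →
    R = (N : ℝ) ^ 4 / κ →
    ∀ (U : Set ℂ), U = {s : ℂ | κ / (2 * (N : ℝ) ^ 4) < s.re ∧ s.re < 2 * σ ∧ |s.im| < 2 * σ} →
    ∀ (Z : C(Icc (2 : ℝ) R, ℂ) → ℂ → ℂ) (A B0 B1 L : ℝ), 0 < A → 0 < B0 →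
    (∀ a, ‖a‖ ≤ A → DifferentiableOn ℂ (Z a) U) →
    (∀ a, ‖a‖ ≤ A → ∀ s ∈ U, ‖Z a s‖ ≤ B1) →
    (∀ a, ‖a‖ ≤ A → ∀ s : ℂ, κ / (2 * (N : ℝ) ^ 2) ≤ ‖s‖ → ‖s‖ ≤ 2 * κ / (N : ℝ) ^ 2 →
      ‖s‖ / 2 ≤ s.re → B0 ≤ ‖Z a s‖) →
    (∀ a b, ‖a‖ ≤ A → ‖b‖ ≤ A → ∀ s ∈ U, ‖Z a s - Z b s‖ ≤ L * ‖a - b‖) →
    B1 ≤ (N : ℝ) ^ 50 * B0 → 1000 * σ * B1 ≤ A → 2000 * σ * L ≤ 1 →
    ∃ a : C(Icc (2 : ℝ) R, ℂ), ‖a‖ ≤ A ∧ ∃ S : Finset ℂ, (N : ℝ) / 100 ≤ S.card ∧
      ∀ s ∈ S, κ / (2 * (N : ℝ) ^ 2) ≤ ‖s‖ ∧ ‖s‖ ≤ 2 * κ / (N : ℝ) ^ 2 ∧ ‖s‖ / 2 ≤ s.re ∧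
        |s.im| ≤ s.re ∧
        ∫ r in Icc (2 : ℝ) R, extC a r * Complex.exp (-2 * s * (r - 1)) = Z a s := by
  obtain ⟨N₀, hN₀⟩ := asym
  refine ⟨N₀, ?_⟩
  intro N hN κ σ R hκ hσ hσ1 hR U hU Z A B0 B1 L hA hB0 hZd hZb hZlow hZL hB1' hA1 hL1
  obtain ⟨hN300, hasym⟩ := hN₀ N hN
  have hn : (300 : ℝ) ≤ N := by exact_mod_cast hN300
  set n : ℝ := (N : ℝ) with hndef
  have hn0 : 0 < n := by linarith
  have hn2 : 90000 ≤ n ^ 2 := by nlinarith
  have hn4 : 1 ≤ n ^ 4 := one_le_pow₀ (by linarith)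
  have hn42 : n ^ 4 = n ^ 2 * n ^ 2 := by ring
  have hκ1 : κ ≤ 1 := by nlinarith
  have hσ0 : 0 < σ := by rw [hσ]; positivity
  set η : ℝ := κ / n ^ 4 with hη
  have hη0 : 0 < η := by positivity
  have hηR : η * R ≤ 1 := by
    rw [hη, hR]; field_simp; exact le_rfl
  have hR2 : n ^ 4 ≤ R := by
    rw [hR, le_div_iff₀ hκ]; nlinarith
  have hR2' : 2 ≤ R := by nlinarith
  have hn44 : 4 ≤ n ^ 4 := by rw [hn42]; nlinarith
  have hησ : η < σ := by
    rw [hη, hσ, div_lt_iff₀ (by positivity)]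
    have h1 : 1 < n ^ 4 * n ^ 4 := by nlinarith
    calc κ = κ * 1 := by ring
      _ < κ * (n ^ 4 * n ^ 4) := mul_lt_mul_of_pos_left h1 hκ
      _ = _ := by ring
  -- delta
  set e : ℝ := Real.exp (-n) with he
  have he0 : 0 < e := Real.exp_pos _
  have he1 : e ≤ 1 / 2 := by
    have h1 : Real.exp (-n) ≤ Real.exp (-1) := Real.exp_le_exp.2 (by linarith)
    have h2 : Real.exp (-1) ≤ 1 / 2 := by
      rw [Real.exp_neg, inv_le_comm₀ (Real.exp_pos _) (by norm_num)]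
      have := Real.exp_one_gt_d9
      norm_num
      linarith
    linarith
  set δ : ℝ := e / (1 - e) with hδ
  have hδ0 : 0 < δ := div_pos he0 (by linarith)
  have hδ1 : δ ≤ 1 := by rw [hδ, div_le_one (by linarith)]; linarith
  have hδe : (1 + δ) * Real.exp (-N) = δ := by
    rw [← hndef, ← he, hδ]
    have : 1 - e ≠ 0 := by linarith
    field_simp
    ring
  have heδ : e ≤ δ := by
    rw [hδ, le_div_iff₀ (by linarith)]
    nlinarith
  have hsmall : 2 * κ / n ^ 2 ≤ σ / 2 := by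
    rw [hσ, div_le_iff₀ (by positivity)]
    have h1 : 4 ≤ n ^ 4 * n ^ 2 := by
      calc (4 : ℝ) ≤ n ^ 4 * 1 := by linarith
        _ ≤ n ^ 4 * n ^ 2 := mul_le_mul_of_nonneg_left (by linarith) (by positivity)
    calc 2 * κ = κ / 2 * 4 := by ring
      _ ≤ κ / 2 * (n ^ 4 * n ^ 2) := mul_le_mul_of_nonneg_left h1 (by positivity)
      _ = _ := by ring
  -- geometry
  have hUo : IsOpen U := by
    rw [hU]
    apply IsOpen.inter
    · exact isOpen_lt continuous_const Complex.continuous_re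
    apply IsOpen.inter
    · exact isOpen_lt Complex.continuous_re continuous_const
    · exact isOpen_lt (continuous_abs.comp Complex.continuous_im) continuous_const
  have hη2 : κ / (2 * n ^ 4) = η / 2 := by rw [hη]; field_simp
  have hUre : ∀ z ∈ U, 0 < z.re := by
    intro z hz
    rw [hU] at hz
    have := hz.1
    rw [hη2] at this
    linarith
  have hrect : ∀ z : ℂ, η ≤ z.re → z.re ≤ σ → -σ ≤ z.im → z.im ≤ σ → z ∈ U := by
    intro z h1 h2 h3 h4
    rw [hU]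
    refine ⟨?_, by linarith, ?_⟩
    · rw [hη2]; linarith
    · rw [abs_lt]; constructor <;> linarith
  have hline : ∀ τ ∈ Icc (-σ) σ, ((η : ℂ) + τ * Complex.I) ∈ U := by
    intro τ hτ
    apply hrect <;> simp [hησ.le, hτ.1, hτ.2]
  have hwd : DifferentiableOn ℂ (wv δ κ) U := fun z hz =>
    (differentiableAt_wv δ hκ (hUre z hz)).differentiableWithinAt
  have hw8 : ∀ z ∈ U, ‖wv δ κ z‖ ≤ 8 := fun z hz => norm_wv_le hδ0.le hδ1 hκ (hUre z hz)
  have hcl : Continuous fun τ : ℝ => ((η : ℂ) + τ * Complex.I) := by fun_prop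
  obtain ⟨a, haA, hfix⟩ := exists_fixed_Gop (R := R) hη0 hηR hσ0
    (fun τ : ℝ => wv δ κ (η + τ * Complex.I))
    (hwd.continuousOn.comp hcl.continuousOn hline)
    (fun τ hτ => hw8 _ (hline τ hτ))
    (fun a τ => Z a (η + τ * Complex.I)) A B1 L hA
    (fun a ha => (hZd a ha).continuousOn.comp hcl.continuousOn hline)
    (fun a ha τ hτ => hZb a ha _ (hline τ hτ))
    (fun a b ha hb τ hτ => hZL a b ha hb _ (hline τ hτ)) hA1 hL1
  refine ⟨a, haA, ?_⟩
  have hB1 : 0 ≤ B1 := (norm_nonneg _).trans (hZb a haA _ (hline 0 ⟨by linarith, hσ0.le⟩))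
  set F0 : ℂ → ℂ := fun z => wv δ κ z * Z a z with hF0
  have hF0d : DifferentiableOn ℂ F0 U := hwd.mul (hZd a haA)
  set J : ℂ → ℂ := fun s => ∫ r in Icc (2 : ℝ) R, extC a r * Complex.exp (-2 * s * (r - 1))
    with hJ
  have hJeq : ∀ s, J s = ∫ r in Icc (2 : ℝ) R,
      Gop η σ (fun τ => F0 (η + τ * Complex.I)) r * Complex.exp (-2 * s * (r - 1)) := by
    intro s
    rw [hJ]
    apply setIntegral_congr_fun measurableSet_Icc
    intro r hr
    simp only
    rw [extC_of_mem a hr, hfix ⟨r, hr⟩]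
  -- estimate
  have hest : ∀ s : ℂ, κ / (2 * n ^ 2) < ‖s‖ → ‖s‖ < 2 * κ / n ^ 2 → ‖s‖ / 2 < s.re →
      ‖J s - F0 s‖ ≤ δ / 2 * B0 := by
    intro s h1 h2 h3
    have hre : κ / (4 * n ^ 2) < s.re := by
      have : κ / (4 * n ^ 2) = κ / (2 * n ^ 2) / 2 := by field_simp; norm_num
      rw [this]; linarith
    have hηs : η ≤ κ / (8 * n ^ 2) := by
      rw [hη, div_le_div_iff₀ (by positivity) (by positivity)]
      have : 8 * n ^ 2 ≤ n ^ 4 := by rw [hn42]; nlinarith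
      nlinarith
    have h8 : κ / (4 * n ^ 2) = 2 * (κ / (8 * n ^ 2)) := by field_simp; norm_num
    have hgap : κ / (8 * n ^ 2) ≤ s.re - η := by linarith
    have hgap0 : 0 < κ / (8 * n ^ 2) := by positivity
    have hs2 : ‖s‖ ≤ σ / 2 := by
      refine h2.le.trans ?_
      exact hsmall
    have key := laplace_est (R := R) hη0 hησ hσ1 hR2' hUo hF0d hrect (M := 8 * B1)
      (m := 4 * Real.exp (-n ^ 2 / 2) * B1) (by
        intro τ hτ
        rw [hF0]
        simp only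
        rw [norm_mul]
        exact mul_le_mul (hw8 _ (hline τ hτ)) (hZb a haA _ (hline τ hτ)) (norm_nonneg _)
          (by norm_num)) (by
        intro z a1 a2 a3 a4 a5
        rw [hF0]
        simp only
        rw [norm_mul]
        have hzU := hrect z a1 a2 a3 a4
        exact mul_le_mul (norm_wv_far_le hδ0.le hδ1 hκ (by linarith) (hUre z hzU)
          (by rw [← hσ]; exact a5)) (hZb a haA _ hzU) (norm_nonneg _) (by positivity))
      (s := s) (by linarith) hs2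
    rw [← hJeq] at key
    refine key.trans ?_
    calc _ ≤ 224 * n ^ 6 * Real.exp (-n ^ 2 / 8) * B1 := numeric hn hκ hσ hR hR2' hB1 hgap
      _ ≤ 224 * n ^ 6 * Real.exp (-n ^ 2 / 8) * (n ^ 50 * B0) :=
          mul_le_mul_of_nonneg_left hB1' (by positivity)
      _ = (224 * n ^ 56 * Real.exp (-n ^ 2 / 8)) * B0 := by ring
      _ ≤ (e / 2) * B0 := mul_le_mul_of_nonneg_right hasym hB0.le
      _ ≤ δ / 2 * B0 := mul_le_mul_of_nonneg_right (by linarith) hB0.le
  -- the function ε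
  have hZne : ∀ s : ℂ, κ / (2 * n ^ 2) < ‖s‖ → ‖s‖ < 2 * κ / n ^ 2 → ‖s‖ / 2 < s.re →
      Z a s ≠ 0 := by
    intro s h1 h2 h3 h0
    have := hZlow a haA s h1.le h2.le h3.le
    rw [h0, norm_zero] at this
    linarith
  have hsU : ∀ s : ℂ, κ / (2 * n ^ 2) < ‖s‖ → ‖s‖ < 2 * κ / n ^ 2 → ‖s‖ / 2 < s.re →
      s ∈ U := by
    intro s h1 h2 h3
    have hs2 : ‖s‖ ≤ σ / 2 := by
      refine h2.le.trans ?_
      exact hsmall
    have hre : κ / (4 * n ^ 2) < s.re := by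
      have : κ / (4 * n ^ 2) = κ / (2 * n ^ 2) / 2 := by field_simp; norm_num
      rw [this]; linarith
    have hηs : η ≤ κ / (4 * n ^ 2) := by
      rw [hη, div_le_div_iff₀ (by positivity) (by positivity)]
      have : 4 * n ^ 2 ≤ n ^ 4 := by rw [hn42]; nlinarith
      nlinarith
    have h5 := Complex.re_le_norm s
    have h6 := Complex.abs_im_le_norm s
    rw [abs_le] at h6
    exact hrect s (by linarith) (by linarith) (by linarith [h6.1]) (by linarith [h6.2])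
  have hJd : Differentiable ℂ J := by
    apply differentiable_laplace (C := ‖a‖)
    · exact (continuousOn_extC a).aestronglyMeasurable measurableSet_Icc
    · intro r hr
      rw [extC_of_mem a hr]
      exact a.norm_coe_le_norm _
  obtain ⟨S, hScard, hS⟩ := zeros hN300 hκ hδ0 hδe (ε := fun s => J s / Z a s - wv δ κ s) (by
      intro s h1 h2 h3
      exact (hJd s).div ((hZd a haA).differentiableAt (hUo.mem_nhds (hsU s h1 h2 h3)))
        (hZne s h1 h2 h3) |>.sub (differentiableAt_wv δ hκ (hUre s (hsU s h1 h2 h3)))) (by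
      intro s h1 h2 h3
      have h4 := hest s h1 h2 h3
      have h5 := hZne s h1 h2 h3
      have h6 := hZlow a haA s h1.le h2.le h3.le
      have h7 : J s / Z a s - wv δ κ s = (J s - F0 s) / Z a s := by
        rw [hF0]; field_simp
      rw [h7, norm_div, div_le_iff₀ (norm_pos_iff.2 h5)]
      calc _ ≤ δ / 2 * B0 := h4
        _ ≤ _ := mul_le_mul_of_nonneg_left h6 (by positivity))
  refine ⟨S, hScard, ?_⟩
  intro s hs
  obtain ⟨h1, h2, h3, h4, h5⟩ := hS s hs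
  refine ⟨h1.le, h2.le, h3.le, h4, ?_⟩
  have h6 : J s / Z a s = 1 := by
    linear_combination h5
  rw [div_eq_one_iff_eq (hZne s h1 h2 h3)] at h6
  exact h6

end Pool.Agent.Helper44.CLTd
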