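import Mathlib

/-! Cauchy's integral formula for a rectangle. -/

namespace Pool.Agent.Helper44.CLTd

open MeasureTheory Set Complex

lemma log_neg_of_im_pos {u : ℂ} (h : 0 < u.im) : log (-u) = log u - Real.pi * I := by
  apply Complex.ext
  · simp [Complex.log_re]
  · simp [Complex.log_im, Complex.arg_neg_eq_arg_sub_pi_of_im_pos h]

lemma log_neg_of_im_neg {u : ℂ} (h : u.im < 0) : log (-u) = log u + Real.pi * I := by
  apply Complex.ext
  · simp [Complex.log_re]
  · simp [Complex.log_im, Complex.arg_neg_eq_arg_add_pi_of_im_neg h]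

/-- horizontal side -/
lemma horiz_log (x0 x1 y : ℝ) (s : ℂ) (h : y ≠ s.im) :
    ∫ x in x0..x1, ((x : ℂ) + y * I - s)⁻¹
      = log ((x1 : ℂ) + y * I - s) - log ((x0 : ℂ) + y * I - s) := by
  have hd : ∀ x : ℝ, HasDerivAt (fun x : ℝ => log ((x : ℂ) + y * I - s))
      ((x : ℂ) + y * I - s)⁻¹ x := by
    intro x
    have h1 : HasDerivAt (fun x : ℝ => (x : ℂ) + y * I - s) 1 x := by
      have := (Complex.ofRealCLM.hasDerivAt (x := x))
      have h2 := (this.add_const ((y : ℂ) * I)).sub_const s
      simpa using h2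
    have h3 : (x : ℂ) + y * I - s ∈ slitPlane := by
      right
      simpa using sub_ne_zero.2 h
    have h4 := h1.clog_real h3
    simpa [one_div] using h4
  apply intervalIntegral.integral_eq_sub_of_hasDerivAt (fun x _ => hd x)
  apply ContinuousOn.intervalIntegrable
  apply Continuous.continuousOn
  apply Continuous.inv₀ (by fun_prop)
  intro x hx
  have := congrArg Complex.im hx
  simp at this
  exact h (by linarith)

/-- right vertical side -/
lemma right_log (x y0 y1 : ℝ) (s : ℂ) (h : s.re < x) :
    I * ∫ y in y0..y1, ((x : ℂ) + y * I - s)⁻¹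
      = log ((x : ℂ) + y1 * I - s) - log ((x : ℂ) + y0 * I - s) := by
  have hd : ∀ y : ℝ, HasDerivAt (fun y : ℝ => log ((x : ℂ) + y * I - s))
      (I * ((x : ℂ) + y * I - s)⁻¹) y := by
    intro y
    have h1 : HasDerivAt (fun y : ℝ => (x : ℂ) + y * I - s) I y := by
      have := (Complex.ofRealCLM.hasDerivAt (x := y))
      have h2 := ((this.mul_const I).const_add (x : ℂ)).sub_const s
      simpa using h2
    have h3 : (x : ℂ) + y * I - s ∈ slitPlane := by
      left
      simpa using h
    have h4 := h1.clog_real h3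
    simpa [div_eq_mul_inv] using h4
  rw [← intervalIntegral.integral_const_mul]
  apply intervalIntegral.integral_eq_sub_of_hasDerivAt (fun x _ => hd x)
  apply ContinuousOn.intervalIntegrable
  apply Continuous.continuousOn
  refine continuous_const.mul ?_
  apply Continuous.inv₀ (by fun_prop)
  intro y hx
  have := congrArg Complex.re hx
  simp at this
  linarith

/-- left vertical side -/
lemma left_log (x y0 y1 : ℝ) (s : ℂ) (h : x < s.re) :
    I * ∫ y in y0..y1, ((x : ℂ) + y * I - s)⁻¹
      = log (-((x : ℂ) + y1 * I - s)) - log (-((x : ℂ) + y0 * I - s)) := by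
  have hd : ∀ y : ℝ, HasDerivAt (fun y : ℝ => log (-((x : ℂ) + y * I - s)))
      (I * ((x : ℂ) + y * I - s)⁻¹) y := by
    intro y
    have h1 : HasDerivAt (fun y : ℝ => -((x : ℂ) + y * I - s)) (-I) y := by
      have := (Complex.ofRealCLM.hasDerivAt (x := y))
      have h2 := (((this.mul_const I).const_add (x : ℂ)).sub_const s).fun_neg
      simpa using h2
    have h3 : -((x : ℂ) + y * I - s) ∈ slitPlane := by
      left
      simpa using h
    have h4 := h1.clog_real h3
    convert h4 using 1
    rw [neg_div_neg_eq, div_eq_mul_inv]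
  rw [← intervalIntegral.integral_const_mul]
  apply intervalIntegral.integral_eq_sub_of_hasDerivAt (fun x _ => hd x)
  apply ContinuousOn.intervalIntegrable
  apply Continuous.continuousOn
  refine continuous_const.mul ?_
  apply Continuous.inv₀ (by fun_prop)
  intro y hx
  have := congrArg Complex.re hx
  simp at this
  linarith

lemma rect_winding {x0 x1 y0 y1 : ℝ} {s : ℂ} (h0 : x0 < s.re) (h1 : s.re < x1) (h2 : y0 < s.im)
    (h3 : s.im < y1) :
    (∫ x in x0..x1, ((x : ℂ) + y0 * I - s)⁻¹) - (∫ x in x0..x1, ((x : ℂ) + y1 * I - s)⁻¹)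
      + I * (∫ y in y0..y1, ((x1 : ℂ) + y * I - s)⁻¹) - I * ∫ y in y0..y1, ((x0 : ℂ) + y * I - s)⁻¹
      = 2 * Real.pi * I := by
  rw [horiz_log x0 x1 y0 s (by linarith), horiz_log x0 x1 y1 s (by linarith), right_log _ _ _ s h1,
    left_log _ _ _ s h0]
  rw [log_neg_of_im_pos (u := (x0 : ℂ) + y1 * I - s) (by simpa using h3),
    log_neg_of_im_neg (u := (x0 : ℂ) + y0 * I - s) (by simpa using h2)]
  ring

/-- Cauchy's integral formula on a rectangle -/
theorem cauchy_rect {x0 x1 y0 y1 : ℝ} {s : ℂ} (h0 : x0 < s.re) (h1 : s.re < x1) (h2 : y0 < s.im)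
    (h3 : s.im < y1) {F : ℂ → ℂ} {U : Set ℂ} (hU : IsOpen U) (hF : DifferentiableOn ℂ F U)
    (hsub : ∀ z : ℂ, x0 ≤ z.re → z.re ≤ x1 → y0 ≤ z.im → z.im ≤ y1 → z ∈ U) :
    (∫ x in x0..x1, F ((x : ℂ) + y0 * I) / ((x : ℂ) + y0 * I - s))
      - (∫ x in x0..x1, F ((x : ℂ) + y1 * I) / ((x : ℂ) + y1 * I - s))
      + I * (∫ y in y0..y1, F ((x1 : ℂ) + y * I) / ((x1 : ℂ) + y * I - s))
      - I * ∫ y in y0..y1, F ((x0 : ℂ) + y * I) / ((x0 : ℂ) + y * I - s)
      = 2 * Real.pi * I * F s := by
  have hsU : s ∈ U := hsub s h0.le h1.le h2.le h3.le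
  have hD : DifferentiableOn ℂ (dslope F s) U :=
    (Complex.differentiableOn_dslope (hU.mem_nhds hsU)).2 hF
  have hx : x0 ≤ x1 := by linarith
  have hy : y0 ≤ y1 := by linarith
  have key := Complex.integral_boundary_rect_eq_zero_of_differentiableOn (dslope F s)
    ((x0 : ℂ) + y0 * I) ((x1 : ℂ) + y1 * I) (by
      refine hD.mono ?_
      intro z hz
      rw [Complex.mem_reProdIm] at hz
      simp only [add_re, ofReal_re, mul_re, I_re, mul_zero, ofReal_im, I_im, mul_one, sub_self,
        add_zero, add_im, mul_im, zero_add] at hz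
      rw [uIcc_of_le hx, uIcc_of_le hy] at hz
      exact hsub z hz.1.1 hz.1.2 hz.2.1 hz.2.2)
  simp only [add_re, ofReal_re, mul_re, I_re, mul_zero, ofReal_im, I_im, mul_one, sub_self,
        add_zero, add_im, mul_im, zero_add, smul_eq_mul] at key
  -- replace dslope by the quotient on the sides
  have hq : ∀ z : ℂ, z ≠ s → dslope F s z = F z / (z - s) - F s * (z - s)⁻¹ := by
    intro z hz
    rw [dslope_of_ne _ hz, slope_def_field]
    ring
  have hcF : ContinuousOn F U := hF.continuousOn
  -- generic integral split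
  have split : ∀ (γ : ℝ → ℂ) (a b : ℝ), Continuous γ → a ≤ b → (∀ t ∈ Icc a b, γ t ∈ U) →
      (∀ t, γ t ≠ s) →
      ∫ t in a..b, dslope F s (γ t)
        = (∫ t in a..b, F (γ t) / (γ t - s)) - F s * ∫ t in a..b, (γ t - s)⁻¹ := by
    intro γ a b hγ hab hm hne
    have c2 : Continuous (fun t => (γ t - s)⁻¹) :=
      (hγ.sub continuous_const).inv₀ (fun t => sub_ne_zero.2 (hne t))
    have c1 : ContinuousOn (fun t => F (γ t) / (γ t - s)) (uIcc a b) := by
      rw [uIcc_of_le hab]
      have : ContinuousOn (fun t => F (γ t)) (Icc a b) := hcF.comp hγ.continuousOn hm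
      simp only [div_eq_mul_inv]
      exact this.mul c2.continuousOn
    have i2 : IntervalIntegrable (fun t => F s * (γ t - s)⁻¹) volume a b :=
      (continuous_const.mul c2).continuousOn.intervalIntegrable
    rw [← intervalIntegral.integral_const_mul, ← intervalIntegral.integral_sub
      c1.intervalIntegrable i2]
    apply intervalIntegral.integral_congr
    intro t _
    exact hq _ (hne t)
  rw [split (fun x : ℝ => (x : ℂ) + y0 * I) x0 x1 (by fun_prop) hx
      (fun t ht => hsub _ (by simpa using ht.1) (by simpa using ht.2) (by simp) (by simpa using hy))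
      (fun t h => by have := congrArg Complex.im h; simp at this; linarith),
    split (fun x : ℝ => (x : ℂ) + y1 * I) x0 x1 (by fun_prop) hx
      (fun t ht => hsub _ (by simpa using ht.1) (by simpa using ht.2) (by simpa using hy) (by simp))
      (fun t h => by have := congrArg Complex.im h; simp at this; linarith),
    split (fun y : ℝ => (x1 : ℂ) + y * I) y0 y1 (by fun_prop) hy
      (fun t ht => hsub _ (by simpa using hx) (by simp) (by simpa using ht.1) (by simpa using ht.2))
      (fun t h => by have := congrArg Complex.re h; simp at this; linarith),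
    split (fun y : ℝ => (x0 : ℂ) + y * I) y0 y1 (by fun_prop) hy
      (fun t ht => hsub _ (by simp) (by simpa using hx) (by simpa using ht.1) (by simpa using ht.2))
      (fun t h => by have := congrArg Complex.re h; simp at this; linarith)] at key
  have hw := rect_winding h0 h1 h2 h3
  linear_combination key + F s * hw

end Pool.Agent.Helper44.CLTd
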